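import Mathlib
import Pool.Agent.Y841.ZT.Two

/-!
# Ramification of a single coefficient of the `L`-functions in a `ℤ_p`-tower of curves

For every `ℤ_p`-tower of curves over a finite field of characteristic `p` with finite ramification
locus and every unramified place `v` of the base with nontrivial Frobenius element there is a constant
`m` such that, for all large `n` and all characters `χ` of order `p ^ n`, `p ^ (n - m)` divides the
ramification index over `ℚ_p` of every field that contains the single coefficient of `s ^ (deg v)` in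
`L(χ, s)`, for instance of the splitting field of `L(χ, s)`.
-/

open PowerSeries

namespace Pool.Agent.Results.MP_30d976_nt.CoefficientRamification

open Pool.Agent.H707R3

theorem result (p : ℕ) [Fact p.Prime] (k F E : Type) [Field k] [Finite k] [CharP k p]
    [Field F] [Algebra k F] [Field E] [Algebra F E] [Algebra k E] [IsScalarTower k F E]
    (h : IsZpTower k F E p) :
    (∃ v : Place k F, v.IsUnramified E ∧ v.frob E ≠ 1) ∧
    ∀ v : Place k F, v.IsUnramified E → v.frob E ≠ 1 →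
    ∃ m N : ℕ, ∀ n, N ≤ n →
      ∀ χ : (E ≃ₐ[F] E) →* ℂ_[p]ˣ, orderOf χ = p ^ n →
        (∃ A : Multiset ℂ_[p], Lfun k χ = (A.map fun α => 1 - C α * X).prod) ∧
        0 < ramIdx (IntermediateField.adjoin ℚ_[p] {coeff v.deg (Lfun k χ)}) ∧
        (∀ K : IntermediateField ℚ_[p] ℂ_[p], coeff v.deg (Lfun k χ) ∈ K →
          p ^ (n - m) ∣ ramIdx K) ∧
        ∀ A : Multiset ℂ_[p], Lfun k χ = (A.map fun α => 1 - C α * X).prod →
          ∀ L : IntermediateField ℚ_[p] ℂ_[p],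
            L = IntermediateField.adjoin ℚ_[p] {α : ℂ_[p] | α ∈ A} →
            coeff v.deg (Lfun k χ) ∈ L ∧ 0 < ramIdx L ∧ p ^ (n - m) ∣ ramIdx L ∧
            ((p : ℝ) ^ m)⁻¹ ≤ ((p : ℝ) ^ n)⁻¹ * ramIdx L := by
  refine ⟨Pool.Agent.Y841.ZT.exists_frob h, fun v hv hfr => ?_⟩
  obtain ⟨m, N, hN⟩ := Pool.Agent.Y841.ZT.tower_dvd (p := p) k h v hv hfr
  obtain ⟨N', hN'⟩ := Lfun_poly h
  refine ⟨m, max N (max N' (m + 1)), fun n hn χ hχ => ?_⟩
  refine ⟨hN' n (by omega) χ hχ, Pool.Agent.Y841.ZT.one_ramIdx_ne_zero k h n χ hχ v.deg,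
    fun K hK => hN n (by omega) χ hχ K hK, ?_⟩
  rintro A hA L rfl
  have hcL : coeff v.deg (Lfun k χ) ∈ IntermediateField.adjoin ℚ_[p] {α : ℂ_[p] | α ∈ A} := by
    rw [hA]
    exact coeff_recipProd_mem _ A (fun α hα => IntermediateField.subset_adjoin _ _ hα) v.deg
  have hint := Pool.Agent.W90.ZT.isIntegral_Lfun h (by omega : n ≠ 0) χ hχ A hA
  have hpos : 0 < ramIdx (IntermediateField.adjoin ℚ_[p] {α : ℂ_[p] | α ∈ A}) :=
    Nat.pos_of_ne_zero (ramIdx_ne_zero A hint)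
  have hdvd := hN n (by omega) χ hχ _ hcL
  refine ⟨hcL, hpos, hdvd, ?_⟩
  have hle := Nat.le_of_dvd hpos hdvd
  have hp : (0 : ℝ) < p := by exact_mod_cast (Fact.out : p.Prime).pos
  have h1 : ((p : ℝ) ^ (n - m)) ≤
      ramIdx (IntermediateField.adjoin ℚ_[p] {α : ℂ_[p] | α ∈ A}) := by
    exact_mod_cast hle
  have h2 : (p : ℝ) ^ n = (p : ℝ) ^ m * (p : ℝ) ^ (n - m) := by
    rw [← pow_add]; congr 1; omega
  have h3 : ((p : ℝ) ^ m)⁻¹ = ((p : ℝ) ^ n)⁻¹ * (p : ℝ) ^ (n - m) := by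
    rw [h2]
    have h4 : (p : ℝ) ^ m ≠ 0 := (pow_pos hp _).ne'
    have h5 : (p : ℝ) ^ (n - m) ≠ 0 := (pow_pos hp _).ne'
    field_simp
  rw [h3]
  exact mul_le_mul_of_nonneg_left h1 (inv_nonneg.2 (pow_pos hp _).le)

end Pool.Agent.Results.MP_30d976_nt.CoefficientRamification
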