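import Mathlib
import Pool.Agent.Y701.ZT.Exact

/-!
# The ramification of the coefficient field of `L(χ_n, s)` in a `ℤ_p`-tower is exactly `φ(p ^ n) / r`

For every `ℤ_p`-tower of curves over a finite field of characteristic `p` with finite ramification locus
there is a divisor `r` of `p - 1` (of `2` if `p = 2`) such that for all large `n` and all characters `χ`
of order `p ^ n` the field generated over `ℚ_p` by the coefficients of `L(χ, s)` has ramification index
exactly `φ(p ^ n) / r`. So the ramification index of the splitting field `L_{p, n}` of `L(χ, s)` is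
divisible by `φ(p ^ n) / r`; in particular it is at least `p ^ n / p` (`2 ^ n / 4` if `p = 2`).

Idea: the coefficients of `L(χ, s)` are sums of `p ^ n`-th roots of unity whose exponents are fixed
`p`-adic integers. The elements `c` of finite order of `ℤ_p^×` which preserve these exponents with their
multiplicities form a finite group, `r` is its order, and for large `n` the automorphisms of
`ℚ_p(μ_{p ^ n})` which fix all coefficients are exactly those given by this group. Here one uses that some
unramified place has a Frobenius element which generates the Galois group of the tower.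
-/

open PowerSeries

namespace Pool.Agent.Results.MP_30d976_nt.ExactCoefficientField

open Pool.Agent.H707R3

/-- For every `ℤ_p`-tower there are `N` and a divisor `r` of `p - 1` (of `2` if `p = 2`) such that for
`n ≥ N` and every character `χ` of order `p ^ n`: `L(χ, s)` is a product of factors `1 - α s`, the
ramification index of the field generated by the coefficients of `L(χ, s)` is exactly `φ(p ^ n) / r`, and
the ramification index of the field generated by the `α` is finite and divisible by `φ(p ^ n) / r`. -/
theorem result (p : ℕ) [Fact p.Prime] (k F E : Type) [Field k] [Finite k] [CharP k p]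
    [Field F] [Algebra k F] [Field E] [Algebra F E] [Algebra k E] [IsScalarTower k F E]
    (h : IsZpTower k F E p) :
    ∃ r : ℕ, r ∣ (if p = 2 then 2 else p - 1) ∧ ∃ N : ℕ, ∀ n, N ≤ n →
      ∀ χ : (E ≃ₐ[F] E) →* ℂ_[p]ˣ, orderOf χ = p ^ n →
        (∃ A : Multiset ℂ_[p], Lfun k χ = (A.map fun α => 1 - C α * X).prod) ∧
        ramIdx (IntermediateField.adjoin ℚ_[p] (Set.range fun j => coeff j (Lfun k χ))) * r =
          Nat.totient (p ^ n) ∧
        ∀ A : Multiset ℂ_[p], Lfun k χ = (A.map fun α => 1 - C α * X).prod →
          0 < ramIdx (IntermediateField.adjoin ℚ_[p] {α : ℂ_[p] | α ∈ A}) ∧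
          Nat.totient (p ^ n) ∣
            ramIdx (IntermediateField.adjoin ℚ_[p] {α : ℂ_[p] | α ∈ A}) * r := by
  obtain ⟨r, hr0, hr, N, hN⟩ := Y701.ZT.Lfun_exact h
  obtain ⟨N', hN'⟩ := Lfun_poly h
  rw [Y701.ZT.totient_q0] at hr
  refine ⟨r, hr, max N (max N' 1), fun n hn χ hχ => ⟨hN' n (by omega) χ hχ,
    (hN n (by omega) χ hχ).2, fun A hA => ?_⟩⟩
  have hint := W90.ZT.isIntegral_Lfun h (by omega : n ≠ 0) χ hχ A hA
  have h0 := ramIdx_ne_zero A hint
  refine ⟨Nat.pos_of_ne_zero h0, ?_⟩
  rw [← (hN n (by omega) χ hχ).2]
  apply Nat.mul_dvd_mul_right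
  have hle : IntermediateField.adjoin ℚ_[p] (Set.range fun j => coeff j (Lfun k χ)) ≤
      IntermediateField.adjoin ℚ_[p] {α : ℂ_[p] | α ∈ A} := by
    rw [IntermediateField.adjoin_le_iff]
    rintro x ⟨j, rfl⟩
    show coeff j (Lfun k χ) ∈ _
    rw [hA]
    exact coeff_recipProd_mem _ A (fun α hα => IntermediateField.subset_adjoin _ _ hα) j
  exact ⟨_, (Subgroup.relIndex_mul_relIndex _ _ _ (valGroup_mono bot_le)
    (valGroup_mono hle)).symm⟩

end Pool.Agent.Results.MP_30d976_nt.ExactCoefficientField
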